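import Pool.Agent.W979.TE.Defs3

/-!
# Copies with a connector of large degree into the set of the possible positions of a child
-/

set_option autoImplicit false

open Classical

namespace Pool.Agent.W227.TE3

open Pool.Agent.W715.BC Pool.Agent.W979.TE3 Finset

section
variable {A B : Type} [Fintype A] [Fintype B]

/-- the vertices at distance two -/
noncomputable def N2 (r : A → B → Prop) (c : A) : Finset A :=
  univ.filter (fun a => ∃ y, r c y ∧ r a y)

theorem card_N2 {r : A → B → Prop} {D K : ℕ} (h : Reg r D K) (c : A) :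
    (N2 r c).card ≤ (K * D) ^ 2 := by
  have h1 : N2 r c ⊆ (univ.filter (fun y : B => r c y)).biUnion
      (fun y => univ.filter (fun a : A => r a y)) := by
    intro a ha
    unfold N2 at ha
    rw [mem_filter] at ha
    obtain ⟨-, y, h1, h2⟩ := ha
    rw [mem_biUnion]
    exact ⟨y, mem_filter.2 ⟨mem_univ _, h1⟩, mem_filter.2 ⟨mem_univ _, h2⟩⟩
  refine (card_le_card h1).trans ?_
  refine card_biUnion_le.trans ?_
  calc ∑ y ∈ univ.filter (fun y : B => r c y), (univ.filter (fun a : A => r a y)).card
      ≤ ∑ y ∈ univ.filter (fun y : B => r c y), K * D := sum_le_sum (fun y _ => h.ub y)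
    _ = (univ.filter (fun y : B => r c y)).card * (K * D) := by rw [sum_const, smul_eq_mul]
    _ ≤ (K * D) * (K * D) := Nat.mul_le_mul_right _ (h.ua c)
    _ = (K * D) ^ 2 := by ring

/-- possible positions of `a_i` -/
noncomputable def XX {s q : ℕ} (r : A → B → Prop) (L M1 : ℕ) (i : Fin s) (σ : Fin q → A) :
    Finset A :=
  univ.filter (fun a => ∃ z : Cop A B s q, CC r L M1 z ∧ z.1 (some i) = a ∧ z.2.1 (some i) = σ)

theorem Xa_eq {s q : ℕ} (r : A → B → Prop) (L M1 : ℕ) (i : Fin s)
    (ρ : Option (Fin s) → Fin q → A) : Xa r L M1 i ρ = XX r L M1 i (ρ (some i)) := rfl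

theorem sum_XX {s q : ℕ} {r : A → B → Prop} {D K : ℕ} (h : Reg r D K) (L M1 : ℕ) (i : Fin s) :
    ∑ σ : Fin q → A, (XX r L M1 i σ).card ≤ Fintype.card A * (K * D) ^ (2 * q) := by
  have h1 : ∑ σ : Fin q → A, (XX r L M1 i σ).card =
      ∑ a : A, (univ.filter (fun σ : Fin q → A => a ∈ XX r L M1 i σ)).card := by
    simp only [card_eq_sum_ones, sum_filter]
    rw [sum_comm]
    apply sum_congr rfl
    intro σ _
    rw [← sum_filter, ← card_eq_sum_ones, ← card_eq_sum_ones]
    congr 1
    ext a
    simp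
  rw [h1]
  calc ∑ a : A, (univ.filter (fun σ : Fin q → A => a ∈ XX r L M1 i σ)).card
      ≤ ∑ a : A, (K * D) ^ (2 * q) := by
        apply sum_le_sum
        intro a _
        have h2 : univ.filter (fun σ : Fin q → A => a ∈ XX r L M1 i σ) ⊆
            Fintype.piFinset (fun _ : Fin q => N2 r a) := by
          intro σ hσ
          rw [mem_filter] at hσ
          have h3 := hσ.2
          unfold XX at h3
          rw [mem_filter] at h3
          obtain ⟨-, z, hz, hz1, hz2⟩ := h3
          rw [Fintype.mem_piFinset]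
          intro l
          unfold N2
          rw [mem_filter]
          refine ⟨mem_univ _, z.2.2.2 (some i) l, ?_, ?_⟩
          · rw [← hz1]
            exact hz.1.2.2.1 (some i) l
          · rw [← hz2]
            exact hz.1.2.2.2 (some i) l
        refine (card_le_card h2).trans ?_
        rw [Fintype.card_piFinset, prod_const, card_univ, Fintype.card_fin]
        calc (N2 r a).card ^ q ≤ ((K * D) ^ 2) ^ q := Nat.pow_le_pow_left (card_N2 h a) q
          _ = (K * D) ^ (2 * q) := by rw [← pow_mul]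
    _ = Fintype.card A * (K * D) ^ (2 * q) := by
        rw [sum_const, card_univ, smul_eq_mul]

/-- the connectors of large degree into `X` -/
noncomputable def YY (r : A → B → Prop) (X : Finset A) (μ : ℝ) (M0 : ℕ) : Finset B :=
  univ.filter (fun y => (M0 : ℝ) + μ * X.card < (mm r X y : ℝ))

theorem card_YY {r : A → B → Prop} {s q t M0 : ℕ} (hE : E1P s q t M0) (hS : ¬ SBlow r s q t)
    (X : Finset A) (μ : ℝ) (hμ : 0 < μ) :
    ((YY r X μ M0).card : ℝ) * μ ≤ 2 * LT s q t * X.card := by
  rcases Nat.eq_zero_or_pos X.card with h0 | h0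
  · have h1 : YY r X μ M0 = ∅ := by
      rw [eq_empty_iff_forall_notMem]
      intro y hy
      unfold YY at hy
      rw [mem_filter] at hy
      have h2 : mm r X y = 0 := by
        unfold mm
        have := card_filter_le X (fun x => r x y)
        omega
      have h3 := hy.2
      rw [h2, h0] at h3
      have h4 : (0 : ℝ) ≤ M0 := Nat.cast_nonneg _
      simp only [Nat.cast_zero, mul_zero, add_zero] at h3
      linarith
    rw [h1, h0]
    simp
  · have hX : (0 : ℝ) < X.card := by exact_mod_cast h0
    have h1 : ((∑ y ∈ univ.filter (fun y : B => M0 ≤ (X.filter (fun x => r x y)).card),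
        (X.filter (fun x => r x y)).card ^ 2 : ℕ) : ℝ) ≤ ((2 * LT s q t * X.card ^ 2 : ℕ) : ℝ) := by
      exact_mod_cast hE A B r X hS
    have hsub : YY r X μ M0 ⊆ univ.filter (fun y : B => M0 ≤ (X.filter (fun x => r x y)).card) := by
      intro y hy
      unfold YY at hy
      rw [mem_filter] at hy ⊢
      refine ⟨mem_univ _, ?_⟩
      have h3 : (M0 : ℝ) < (mm r X y : ℝ) := by
        have : 0 ≤ μ * X.card := by positivity
        linarith [hy.2]
      have h4 : M0 < mm r X y := by exact_mod_cast h3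
      exact h4.le
    have h2 : ((YY r X μ M0).card : ℝ) * (μ * X.card) ≤
        ((∑ y ∈ univ.filter (fun y : B => M0 ≤ (X.filter (fun x => r x y)).card),
        (X.filter (fun x => r x y)).card ^ 2 : ℕ) : ℝ) := by
      rw [Nat.cast_sum]
      calc ((YY r X μ M0).card : ℝ) * (μ * X.card) = ∑ y ∈ YY r X μ M0, (μ * X.card) := by
            rw [sum_const, nsmul_eq_mul]
        _ ≤ ∑ y ∈ YY r X μ M0, (((X.filter (fun x => r x y)).card ^ 2 : ℕ) : ℝ) := by
            apply sum_le_sum
            intro y hy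
            unfold YY at hy
            rw [mem_filter] at hy
            have h3 := hy.2
            have h4 : (0 : ℝ) ≤ M0 := Nat.cast_nonneg _
            have h5 : μ * X.card < (mm r X y : ℝ) := by linarith
            have h6 : (0 : ℝ) < (mm r X y : ℝ) := lt_of_le_of_lt (by positivity) h5
            have h7 : 1 ≤ mm r X y := by
              have : 0 < mm r X y := by exact_mod_cast h6
              omega
            have h8 : (mm r X y : ℝ) ≤ ((mm r X y ^ 2 : ℕ) : ℝ) := by
              have : mm r X y ≤ mm r X y ^ 2 := by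
                rw [sq]
                exact Nat.le_mul_of_pos_left _ h7
              exact_mod_cast this
            have h9 : ((mm r X y ^ 2 : ℕ) : ℝ) = (((X.filter (fun x => r x y)).card ^ 2 : ℕ) : ℝ) := rfl
            rw [← h9]
            linarith
        _ ≤ _ := by
            apply sum_le_sum_of_subset_of_nonneg hsub
            intro y _ _
            positivity
    have h3 : (((YY r X μ M0).card : ℝ) * μ) * X.card ≤ (2 * LT s q t * X.card) * X.card := by
      have h4 := h2.trans h1
      push_cast at h4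
      nlinarith
    exact le_of_mul_le_mul_right h3 hX

/-- given the centre and the roots of `a_i`, the number of the possible families of roots -/
theorem fibre_card {s q : ℕ} {r : A → B → Prop} {D K : ℕ} (h : Reg r D K) (i : Fin s)
    (σ : Fin q → A) (c : A) :
    (univ.filter (fun ρ : Option (Fin s) → Fin q → A => ρ (some i) = σ ∧ (∀ l, ρ none l ∈ N2 r c) ∧
      ∀ j, j ≠ i → ∃ u ∈ N2 r c, ∀ l, ρ (some j) l ∈ N2 r u)).card ≤
      (K * D) ^ (2 * q + (s - 1) * (2 * q + 2)) := by
  set S : Option (Fin s) → Finset (Fin q → A) := fun x =>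
    match x with
    | none => Fintype.piFinset (fun _ : Fin q => N2 r c)
    | some j => if j = i then {σ} else (N2 r c).biUnion (fun u => Fintype.piFinset (fun _ : Fin q => N2 r u))
    with hS
  have hsub : (univ.filter (fun ρ : Option (Fin s) → Fin q → A => ρ (some i) = σ ∧
      (∀ l, ρ none l ∈ N2 r c) ∧ ∀ j, j ≠ i → ∃ u ∈ N2 r c, ∀ l, ρ (some j) l ∈ N2 r u)) ⊆
      Fintype.piFinset S := by
    intro ρ hρ
    rw [mem_filter] at hρ
    obtain ⟨-, h1, h2, h3⟩ := hρ
    rw [Fintype.mem_piFinset]
    intro x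
    rcases x with _ | j
    · show ρ none ∈ Fintype.piFinset (fun _ : Fin q => N2 r c)
      rw [Fintype.mem_piFinset]
      exact h2
    · show ρ (some j) ∈ if j = i then {σ} else
        (N2 r c).biUnion (fun u => Fintype.piFinset (fun _ : Fin q => N2 r u))
      by_cases hj : j = i
      · rw [if_pos hj, mem_singleton, hj]
        exact h1
      · rw [if_neg hj, mem_biUnion]
        obtain ⟨u, hu, h4⟩ := h3 j hj
        exact ⟨u, hu, (Fintype.mem_piFinset).2 h4⟩
  refine (card_le_card hsub).trans ?_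
  rw [Fintype.card_piFinset, Fintype.prod_option]
  have hpi : ∀ u : A, (Fintype.piFinset (fun _ : Fin q => N2 r u)).card ≤ (K * D) ^ (2 * q) := by
    intro u
    rw [Fintype.card_piFinset, prod_const, card_univ, Fintype.card_fin, pow_mul]
    exact Nat.pow_le_pow_left (card_N2 h u) q
  have h1 : (S none).card ≤ (K * D) ^ (2 * q) := hpi c
  have h2 : ∏ j : Fin s, (S (some j)).card ≤ ((K * D) ^ (2 * q + 2)) ^ (s - 1) := by
    calc ∏ j : Fin s, (S (some j)).card ≤ ∏ j : Fin s, (if j = i then 1 else (K * D) ^ (2 * q + 2)) := by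
          apply prod_le_prod' (N := ℕ)
          intro j _
          show (if j = i then {σ} else (N2 r c).biUnion
            (fun u => Fintype.piFinset (fun _ : Fin q => N2 r u))).card ≤ _
          by_cases hj : j = i
          · rw [if_pos hj, if_pos hj, card_singleton]
          · rw [if_neg hj, if_neg hj]
            refine card_biUnion_le.trans ?_
            calc ∑ u ∈ N2 r c, (Fintype.piFinset (fun _ : Fin q => N2 r u)).card
                ≤ ∑ u ∈ N2 r c, (K * D) ^ (2 * q) := sum_le_sum (fun u _ => hpi u)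
              _ = (N2 r c).card * (K * D) ^ (2 * q) := by rw [sum_const, smul_eq_mul]
              _ ≤ (K * D) ^ 2 * (K * D) ^ (2 * q) := Nat.mul_le_mul_right _ (card_N2 h c)
              _ = (K * D) ^ (2 * q + 2) := by rw [← pow_add]; congr 1; ring
      _ = ((K * D) ^ (2 * q + 2)) ^ (s - 1) := by
          rw [prod_ite, prod_const_one, one_mul, prod_const]
          congr 1
          rw [filter_ne' univ i, card_erase_of_mem (mem_univ _), card_univ, Fintype.card_fin]
  calc (S none).card * ∏ j : Fin s, (S (some j)).card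
      ≤ (K * D) ^ (2 * q) * ((K * D) ^ (2 * q + 2)) ^ (s - 1) := Nat.mul_le_mul h1 h2
    _ = (K * D) ^ (2 * q + (s - 1) * (2 * q + 2)) := by
        rw [← pow_mul, ← pow_add]; congr 1; ring

end

theorem te3_ba (hKAP : S_KAP) : S_BA := by
  intro s q t K M1 M0 hs hq hK hE
  refine ⟨((M1 ^ s * (LT s q t) ^ hh s q : ℕ) : ℝ) * (2 * LT s q t) * (K : ℝ) ^ (2 * hh s q - 1), ?_⟩
  intro ν hν A B _ _ _ r D i hR hD hS
  set L := LT s q t with hL
  have hDr : (0 : ℝ) < D := by exact_mod_cast hD
  set μ : ℝ := ν / D with hμd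
  have hμ : 0 < μ := div_pos hν hDr
  set Z : Finset (Cop A B s q) := univ.filter (fun z : Cop A B s q => CC r L M1 z ∧
      (M0 : ℝ) + μ * ((Xa r L M1 i z.2.1).card : ℝ) <
        (mm r (Xa r L M1 i z.2.1) (z.2.2.1 i) : ℝ)) with hZ
  -- roots and centre
  set f : Cop A B s q → (Option (Fin s) → Fin q → A) × A := fun z => (z.2.1, z.1 none) with hf
  have hZP : Z.card ≤ (M1 ^ s * L ^ hh s q) * (Z.image f).card := by
    apply card_le_mul_card_image
    intro p _
    refine le_trans ?_ (hKAP s q L M1 A B r p.1 none p.2)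
    apply card_le_card
    intro z hz
    rw [mem_filter, hZ, mem_filter] at hz
    rw [mem_filter]
    refine ⟨mem_univ _, hz.1.2.1, ?_, ?_⟩
    · rw [← hz.2]
    · rw [← hz.2]
  -- roots of a_i and centre
  set g : (Option (Fin s) → Fin q → A) × A → (Fin q → A) × A := fun p => (p.1 (some i), p.2) with hg
  have hPQ : (Z.image f).card ≤ (K * D) ^ (2 * q + (s - 1) * (2 * q + 2)) *
      ((Z.image f).image g).card := by
    apply card_le_mul_card_image
    intro p _
    refine le_trans ?_ (fibre_card (s := s) hR i p.1 p.2)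
    apply card_le_card_of_injOn (fun w => w.1)
    · intro w hw
      rw [mem_coe, mem_filter, mem_image] at hw
      obtain ⟨⟨z, hz, hzw⟩, hwp⟩ := hw
      rw [hZ, mem_filter] at hz
      have hH := hz.2.1.1
      rw [mem_coe, mem_filter]
      have e1 : w.1 (some i) = p.1 := by rw [← hwp]
      have e2 : w.2 = p.2 := by rw [← hwp]
      have e3 : w.1 = z.2.1 := by rw [← hzw]
      have e4 : w.2 = z.1 none := by rw [← hzw]
      refine ⟨mem_univ _, e1, ?_, ?_⟩
      · intro l
        unfold N2
        rw [mem_filter]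
        refine ⟨mem_univ _, z.2.2.2 none l, ?_, ?_⟩
        · rw [← e2, e4]; exact hH.2.2.1 none l
        · show r (w.1 none l) _
          rw [e3]; exact hH.2.2.2 none l
      · intro j _
        refine ⟨z.1 (some j), ?_, ?_⟩
        · unfold N2
          rw [mem_filter]
          refine ⟨mem_univ _, z.2.2.1 j, ?_, hH.2.1 j⟩
          rw [← e2, e4]; exact hH.1 j
        · intro l
          unfold N2
          rw [mem_filter]
          refine ⟨mem_univ _, z.2.2.2 (some j) l, hH.2.2.1 (some j) l, ?_⟩
          show r (w.1 (some j) l) _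
          rw [e3]; exact hH.2.2.2 (some j) l
    · intro w hw w' hw' hww
      rw [mem_coe, mem_filter] at hw hw'
      have e2 : w.2 = p.2 := by rw [← hw.2]
      have e2' : w'.2 = p.2 := by rw [← hw'.2]
      exact Prod.ext hww (e2.trans e2'.symm)
  have hQ : ((Z.image f).image g).card ≤
      ∑ σ : Fin q → A, (YY r (XX r L M1 i σ) μ M0).card * (K * D) := by
    have h1 : (Z.image f).image g ⊆ (univ : Finset (Fin q → A)).biUnion (fun σ =>
        ((YY r (XX r L M1 i σ) μ M0).biUnion (fun y => univ.filter (fun a : A => r a y))).image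
          (fun c => (σ, c))) := by
      intro p hp
      rw [mem_image] at hp
      obtain ⟨w, hw, hwp⟩ := hp
      rw [mem_image] at hw
      obtain ⟨z, hz, hzw⟩ := hw
      rw [hZ, mem_filter] at hz
      rw [mem_biUnion]
      refine ⟨z.2.1 (some i), mem_univ _, ?_⟩
      rw [mem_image]
      refine ⟨z.1 none, ?_, ?_⟩
      · rw [mem_biUnion]
        refine ⟨z.2.2.1 i, ?_, ?_⟩
        · unfold YY
          rw [mem_filter]
          exact ⟨mem_univ _, hz.2.2⟩
        · rw [mem_filter]
          exact ⟨mem_univ _, hz.2.1.1.1 i⟩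
      · rw [← hwp, ← hzw]
    refine (card_le_card h1).trans ?_
    refine card_biUnion_le.trans ?_
    apply sum_le_sum
    intro σ _
    refine card_image_le.trans ?_
    refine card_biUnion_le.trans ?_
    calc ∑ y ∈ YY r (XX r L M1 i σ) μ M0, (univ.filter (fun a : A => r a y)).card
        ≤ ∑ y ∈ YY r (XX r L M1 i σ) μ M0, K * D := sum_le_sum (fun y _ => hR.ub y)
      _ = (YY r (XX r L M1 i σ) μ M0).card * (K * D) := by rw [sum_const, smul_eq_mul]
  -- the sum over σ
  have hX := sum_XX (q := q) hR L M1 i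
  have hsum : ((∑ σ : Fin q → A, (YY r (XX r L M1 i σ) μ M0).card : ℕ) : ℝ) * μ ≤
      2 * L * (Fintype.card A * ((K : ℝ) * D) ^ (2 * q)) := by
    rw [Nat.cast_sum, sum_mul]
    calc ∑ σ : Fin q → A, ((YY r (XX r L M1 i σ) μ M0).card : ℝ) * μ
        ≤ ∑ σ : Fin q → A, 2 * (L : ℝ) * ((XX r L M1 i σ).card : ℝ) :=
          sum_le_sum (fun σ _ => card_YY hE hS _ μ hμ)
      _ = 2 * (L : ℝ) * ((∑ σ : Fin q → A, (XX r L M1 i σ).card : ℕ) : ℝ) := by
          rw [Nat.cast_sum, mul_sum]
      _ ≤ 2 * L * (Fintype.card A * ((K : ℝ) * D) ^ (2 * q)) := by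
          apply mul_le_mul_of_nonneg_left _ (by positivity)
          exact_mod_cast hX
  have hall : Z.card ≤ (M1 ^ s * L ^ hh s q) * ((K * D) ^ (2 * q + (s - 1) * (2 * q + 2)) *
      ((∑ σ : Fin q → A, (YY r (XX r L M1 i σ) μ M0).card) * (K * D))) := by
    refine hZP.trans (Nat.mul_le_mul_left _ (hPQ.trans (Nat.mul_le_mul_left _ (hQ.trans ?_))))
    rw [sum_mul]
  have hallr : (Z.card : ℝ) ≤ ((M1 ^ s * L ^ hh s q : ℕ) : ℝ) *
      (((K : ℝ) * D) ^ (2 * q + (s - 1) * (2 * q + 2)) *
      (((∑ σ : Fin q → A, (YY r (XX r L M1 i σ) μ M0).card : ℕ) : ℝ) * ((K : ℝ) * D))) := by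
    exact_mod_cast hall
  refine hallr.trans ?_
  set SS : ℝ := ((∑ σ : Fin q → A, (YY r (XX r L M1 i σ) μ M0).card : ℕ) : ℝ) with hSSd
  have hSSle : SS ≤ 2 * L * (Fintype.card A * ((K : ℝ) * D) ^ (2 * q)) / μ := by
    rw [le_div_iff₀ hμ]
    exact hsum
  have hKD : (0 : ℝ) ≤ (K : ℝ) * D := by positivity
  calc ((M1 ^ s * L ^ hh s q : ℕ) : ℝ) * (((K : ℝ) * D) ^ (2 * q + (s - 1) * (2 * q + 2)) *
        (SS * ((K : ℝ) * D)))
      ≤ ((M1 ^ s * L ^ hh s q : ℕ) : ℝ) * (((K : ℝ) * D) ^ (2 * q + (s - 1) * (2 * q + 2)) *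
        ((2 * L * (Fintype.card A * ((K : ℝ) * D) ^ (2 * q)) / μ) * ((K : ℝ) * D))) := by
        apply mul_le_mul_of_nonneg_left _ (by positivity)
        apply mul_le_mul_of_nonneg_left _ (by positivity)
        exact mul_le_mul_of_nonneg_right hSSle hKD
    _ = ((M1 ^ s * L ^ hh s q : ℕ) : ℝ) * (2 * L) * (K : ℝ) ^ (2 * hh s q - 1) / ν *
        (Fintype.card A : ℝ) * (D : ℝ) ^ (2 * hh s q) := by
        have hexp : 2 * q + (s - 1) * (2 * q + 2) + 2 * q + 1 = 2 * hh s q - 1 := by
          unfold hh
          obtain ⟨s', rfl⟩ : ∃ s', s = s' + 1 := ⟨s - 1, by omega⟩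
          have : 2 * (s' + 1 + (s' + 1 + 1) * q) = (2 * q + s' * (2 * q + 2) + 2 * q + 1) + 1 := by ring
          rw [this]
          simp
        have h2h : 2 * hh s q = (2 * hh s q - 1) + 1 := by
          have : 0 < hh s q := by unfold hh; omega
          omega
        have e1 : ((K : ℝ) * D) ^ (2 * q + (s - 1) * (2 * q + 2)) *
            ((2 * L * (Fintype.card A * ((K : ℝ) * D) ^ (2 * q)) / μ) * ((K : ℝ) * D)) =
            2 * L * Fintype.card A / μ * ((K : ℝ) * D) ^ (2 * hh s q - 1) := by
          rw [← hexp, pow_add, pow_add, pow_add]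
          ring
        rw [e1, mul_pow]
        have e2 : (D : ℝ) ^ (2 * hh s q) = (D : ℝ) ^ (2 * hh s q - 1) * D := by
          rw [← pow_succ, ← h2h]
        rw [e2, hμd]
        field_simp

end Pool.Agent.W227.TE3
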