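import Pool.Agent.W921.SF.Stm
import Pool.Agent.Helper578.JD.Comp

/-!
Translation of the block normal form to codes of formulas, computably.
-/

set_option autoImplicit false

open FirstOrder FirstOrder.Language Pool.Agent.Helper227.EN

namespace Pool.Agent.W227.SFCT

open Pool.Agent.W921.SF
open Pool.Agent.Helper578.JD Pool.Agent.Helper578.JD.Oracle Pool.Agent.Helper578.JD.Defs
open Pool.Agent.Helper578.JD.RE

@[fun_prop] theorem cdiv {α : Type*} [Primcodable α] {f g : α → ℕ} (hf : Computable f)
    (hg : Computable g) : Computable (fun x => f x / g x) := Primrec.nat_div.to_comp.comp hf hg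
@[fun_prop] theorem cmod {α : Type*} [Primcodable α] {f g : α → ℕ} (hf : Computable f)
    (hg : Computable g) : Computable (fun x => f x % g x) := Primrec.nat_mod.to_comp.comp hf hg

/-- A family of predicates given by a computable family of codes of formulas. -/
def CF {α : Type} [Primcodable α] (R : α → ∀ (M : Type) [LA.Structure M], (ℕ → M) → Prop) : Prop :=
  ∃ F : α → ℕ, Computable F ∧ ∀ (a : α) (M : Type) [LA.Structure M] (x : ℕ → M),
    Sat (F a) x ↔ R a M x

variable {α β : Type} [Primcodable α] [Primcodable β]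

theorem CF.congr {R S : α → ∀ (M : Type) [LA.Structure M], (ℕ → M) → Prop} (h : CF R)
    (hRS : ∀ (a : α) (M : Type) [LA.Structure M] (x : ℕ → M), R a M x ↔ S a M x) : CF S := by
  obtain ⟨F, hF, h1⟩ := h
  exact ⟨F, hF, fun a M _ x => (h1 a M x).trans (hRS a M x)⟩

theorem CF.nand {R S : α → ∀ (M : Type) [LA.Structure M], (ℕ → M) → Prop} (hR : CF R)
    (hS : CF S) : CF fun a M _ x => ¬ (R a M x ∧ S a M x) := by
  obtain ⟨F, hF, h1⟩ := hR
  obtain ⟨G, hG, h2⟩ := hS
  refine ⟨fun a => cNand (F a) (G a), ?_, fun a M _ x => ?_⟩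
  · unfold cNand; fun_prop
  · rw [Sat_cNand, h1, h2]

theorem CF.not {R : α → ∀ (M : Type) [LA.Structure M], (ℕ → M) → Prop} (hR : CF R) :
    CF fun a M _ x => ¬ R a M x :=
  (hR.nand hR).congr fun a M _ x => by rw [and_self]

theorem CF.and {R S : α → ∀ (M : Type) [LA.Structure M], (ℕ → M) → Prop} (hR : CF R)
    (hS : CF S) : CF fun a M _ x => R a M x ∧ S a M x :=
  (hR.nand hS).not.congr fun a M _ x => by rw [not_not]

theorem CF.or {R S : α → ∀ (M : Type) [LA.Structure M], (ℕ → M) → Prop} (hR : CF R)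
    (hS : CF S) : CF fun a M _ x => R a M x ∨ S a M x :=
  (hR.not.nand hS.not).congr fun a M _ x => by tauto

theorem CF.comp {R : β → ∀ (M : Type) [LA.Structure M], (ℕ → M) → Prop} (hR : CF R) (f : α → β)
    (hf : Computable f) : CF fun a M _ x => R (f a) M x := by
  obtain ⟨F, hF, h1⟩ := hR
  exact ⟨fun a => F (f a), hF.comp hf, fun a M _ x => h1 _ M x⟩

theorem CF.true' : CF fun (_ : α) (M : Type) [LA.Structure M] (_ : ℕ → M) => True := by
  refine ⟨fun _ => cNand 0 (cNand 0 0), Computable.const _, fun a M _ x => ?_⟩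
  rw [Sat_cNand, Sat_cNand]
  tauto

theorem CF.false' : CF fun (_ : α) (M : Type) [LA.Structure M] (_ : ℕ → M) => False :=
  CF.true'.not.congr fun a M _ x => by simp

theorem CF.ite {R S : α → ∀ (M : Type) [LA.Structure M], (ℕ → M) → Prop} (hR : CF R)
    (hS : CF S) (q : α → Prop) [DecidablePred q] (hq : ComputablePred q) :
    CF fun a M _ x => if q a then R a M x else S a M x := by
  obtain ⟨F, hF, h1⟩ := hR
  obtain ⟨G, hG, h2⟩ := hS
  refine ⟨fun a => if q a then F a else G a, cite hq hF hG, fun a M _ x => ?_⟩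
  beta_reduce
  split_ifs
  · exact h1 a M x
  · exact h2 a M x

theorem CF.atom (p : α → ℕ) (hp : Computable p) (w : α × ℕ → ℕ) (hw : Computable w) :
    CF fun a M _ x => Dg (fun i => x (w (a, i))) (p a) = true := by
  refine ⟨fun a => cAt (cd (p a).unpair.1 (w (a, (p a).unpair.2.unpair.1))
    (w (a, (p a).unpair.2.unpair.2.unpair.1)) (w (a, (p a).unpair.2.unpair.2.unpair.2))),
    ?_, fun a M _ x => ?_⟩
  · unfold cAt cd
    fun_prop
  · rw [Sat_cAt]
    simp [Dg, cd]

theorem CF.exlt {R : α × ℕ → ∀ (M : Type) [LA.Structure M], (ℕ → M) → Prop} (hR : CF R)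
    (n : α → ℕ) (hn : Computable n) : CF fun a M _ x => ∃ u < n a, R (a, u) M x := by
  obtain ⟨F, hF, h1⟩ := hR
  let G : α → ℕ → ℕ := fun a k => Nat.rec (cNand (cNand 0 (cNand 0 0)) (cNand 0 (cNand 0 0)))
    (fun u ih => cNand (cNand ih ih) (cNand (F (a, u)) (F (a, u)))) k
  have hG : Computable fun a => G a (n a) := by
    refine Computable.nat_rec (f := n) (g := fun _ => cNand (cNand 0 (cNand 0 0))
      (cNand 0 (cNand 0 0))) (h := fun a (z : ℕ × ℕ) => cNand (cNand z.2 z.2)
      (cNand (F (a, z.1)) (F (a, z.1)))) hn (Computable.const _) ?_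
    show Computable fun q : α × (ℕ × ℕ) => cNand (cNand q.2.2 q.2.2)
      (cNand (F (q.1, q.2.1)) (F (q.1, q.2.1)))
    unfold cNand
    fun_prop
  refine ⟨fun a => G a (n a), hG, fun a M _ x => ?_⟩
  beta_reduce
  generalize n a = k
  induction k with
  | zero =>
    show Sat (cNand (cNand 0 (cNand 0 0)) (cNand 0 (cNand 0 0))) x ↔ _
    simp only [Sat_cNand]
    constructor
    · intro h; exfalso; tauto
    · rintro ⟨u, hu, -⟩; omega
  | succ k ih =>
    show Sat (cNand (cNand (G a k) (G a k)) (cNand (F (a, k)) (F (a, k)))) x ↔ _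
    simp only [Sat_cNand, and_self]
    rw [ih, h1]
    constructor
    · intro h
      by_cases h2 : R (a, k) M x
      · exact ⟨k, by omega, h2⟩
      · by_contra h3
        refine h ⟨fun ⟨u, hu, h4⟩ => h3 ⟨u, by omega, h4⟩, h2⟩
    · rintro ⟨u, hu, h2⟩ ⟨h3, h4⟩
      rcases Nat.lt_succ_iff_lt_or_eq.1 hu with h5 | rfl
      · exact h3 ⟨u, h5, h2⟩
      · exact h4 h2

theorem CF.alllt {R : α × ℕ → ∀ (M : Type) [LA.Structure M], (ℕ → M) → Prop} (hR : CF R)
    (n : α → ℕ) (hn : Computable n) : CF fun a M _ x => ∀ u < n a, R (a, u) M x :=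
  (CF.exlt hR.not n hn).not.congr fun a M _ x => by push Not; rfl

/-- quantification over a block of variables -/
theorem CF.block {R : α → ∀ (M : Type) [LA.Structure M], (ℕ → M) → Prop} (hR : CF R)
    (s n : α → ℕ) (hs : Computable s) (hn : Computable n) :
    CF fun a M _ x => ∀ y : ℕ → M, R a M fun j => if s a ≤ j ∧ j < s a + n a then y (j - s a)
      else x j := by
  obtain ⟨F, hF, h1⟩ := hR
  let G : α → ℕ → ℕ := fun a k => Nat.rec (F a) (fun u ih => cAll (s a + u) ih) k
  have hG : Computable fun a => G a (n a) := by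
    refine Computable.nat_rec (f := n) (g := F) (h := fun a (z : ℕ × ℕ) => cAll (s a + z.1) z.2)
      hn hF ?_
    show Computable fun q : α × (ℕ × ℕ) => cAll (s q.1 + q.2.1) q.2.2
    unfold cAll
    fun_prop
  refine ⟨fun a => G a (n a), hG, fun a M _ => ?_⟩
  beta_reduce
  generalize n a = k
  induction k with
  | zero =>
    intro x
    show Sat (F a) x ↔ _
    rw [h1]
    have : ∀ y : ℕ → M, (fun j => if s a ≤ j ∧ j < s a + 0 then y (j - s a) else x j) = x := by
      intro y; funext j; rw [if_neg (by omega)]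
    simp only [this]
    exact ⟨fun h _ => h, fun h => h x⟩
  | succ k ih =>
    intro x
    show Sat (cAll (s a + k) (G a k)) x ↔ _
    rw [Sat_cAll]
    constructor
    · intro h y
      have h2 := (ih _).1 (h (y k)) y
      convert h2 using 2 with j
      by_cases h3 : s a ≤ j ∧ j < s a + k
      · rw [if_pos h3, if_pos (by omega)]
      · rw [if_neg h3]
        by_cases h4 : j = s a + k
        · rw [if_pos (by omega), h4, Function.update_self]; congr 1; omega
        · rw [if_neg (by omega), Function.update_of_ne h4]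
    · intro h v
      refine (ih _).2 fun y => ?_
      have h2 := h (Function.update y k v)
      convert h2 using 2 with j
      by_cases h3 : s a ≤ j ∧ j < s a + k
      · rw [if_pos h3, if_pos (by omega), Function.update_of_ne (by omega)]
      · rw [if_neg h3]
        by_cases h4 : j = s a + k
        · rw [if_pos (by omega), h4, Function.update_self]
          have : s a + k - s a = k := by omega
          rw [this, Function.update_self]
        · rw [if_neg (by omega), Function.update_of_ne h4]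

theorem DN_loc {M : Type} [LA.Structure M] (p : ℕ) (x y : ℕ → M) (h : ∀ i ≤ p, x i = y i) :
    DN p x ↔ DN p y := by
  unfold DN
  refine exists_congr fun u => and_congr_right fun _ => forall_congr' fun e => ?_
  refine imp_congr_right fun he => imp_congr_right fun _ => ?_
  have hB : p.unpair.2.unpair.2.unpair.2 ≤ p :=
    ((Nat.unpair_right_le _).trans (Nat.unpair_right_le _)).trans (Nat.unpair_right_le _)
  have : Dg x (e / 2) = Dg y (e / 2) :=
    E_agree_Dg y x (e / 2 + 1) (fun i hi => h i (by omega)) (e / 2) (by omega)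
  rw [this]

theorem Q_loc {M : Type} [LA.Structure M] (m p : ℕ) : ∀ x y : ℕ → M, (∀ i ≤ p, x i = y i) →
    (Q m p x ↔ Q m p y) := by
  induction m with
  | zero => exact fun x y h => DN_loc p x y h
  | succ m ih =>
    intro x y h
    refine exists_congr fun z => not_congr (ih _ _ fun i hi => ?_)
    unfold mrg
    split_ifs
    · exact h _ (by omega)
    · rfl

theorem cf_Q (m : ℕ) : ∀ (α : Type) [Primcodable α] (p : α → ℕ), Computable p → ∀ w : α × ℕ → ℕ,
    Computable w → ∀ s : α → ℕ, Computable s → (∀ a i, w (a, i) < s a) →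
      CF fun (a : α) M _ x => Q m (p a) fun i => x (w (a, i)) := by
  induction m with
  | zero =>
    intro α _ p hp w hw s hs _
    show CF fun (a : α) M _ x => DN (p a) fun i => x (w (a, i))
    unfold DN
    refine CF.exlt (R := fun (q : α × ℕ) M _ x => ∀ e < (p q.1).unpair.2.unpair.2.unpair.2,
      (1 + (Nat.pair q.2 e + 1) * (p q.1).unpair.2.unpair.1 ∣ (p q.1).unpair.1) →
      (Dg (fun i => x (w (q.1, i))) (e / 2) = true ↔ e % 2 = 1)) ?_
      (fun a => (p a).unpair.2.unpair.2.unpair.1) (by fun_prop)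
    refine CF.alllt (R := fun (q : (α × ℕ) × ℕ) M _ x =>
      (1 + (Nat.pair q.1.2 q.2 + 1) * (p q.1.1).unpair.2.unpair.1 ∣ (p q.1.1).unpair.1) →
      (Dg (fun i => x (w (q.1.1, i))) (q.2 / 2) = true ↔ q.2 % 2 = 1)) ?_
      (fun q => (p q.1).unpair.2.unpair.2.unpair.2) (by fun_prop)
    have h1 : CF fun (q : (α × ℕ) × ℕ) M _ x =>
        Dg (fun i => x (w (q.1.1, i))) (q.2 / 2) = true :=
      CF.atom (fun q : (α × ℕ) × ℕ => q.2 / 2) (by fun_prop)
        (fun z : ((α × ℕ) × ℕ) × ℕ => w (z.1.1.1, z.2)) (by fun_prop)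
    have h2 := CF.ite (CF.ite h1 h1.not (fun q : (α × ℕ) × ℕ => q.2 % 2 = 1)
      (cp_eq (by fun_prop) (by fun_prop))) CF.true' (fun q : (α × ℕ) × ℕ =>
        (p q.1.1).unpair.1 % (1 + (Nat.pair q.1.2 q.2 + 1) * (p q.1.1).unpair.2.unpair.1) = 0)
        (cp_eq (by fun_prop) (by fun_prop))
    refine h2.congr fun q M _ x => ?_
    rw [Nat.dvd_iff_mod_eq_zero]
    split_ifs with h3 h4
    · simp [h3, h4]
    · simp [h3, h4]
    · simp [h3]
  | succ m ih =>
    intro α _ p hp w hw s hs hws
    let w2 : α × ℕ → ℕ := fun q => if q.2 % 2 = 0 then w (q.1, q.2 / 2) else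
      s q.1 + min (q.2 / 2) (p q.1)
    have hw2 : Computable w2 :=
      cite (cp_eq (by fun_prop) (by fun_prop)) (by fun_prop) (by fun_prop)
    have h1 := ih α p hp w2 hw2 (fun a => s a + p a + 1) (by fun_prop) (by
      intro a i
      show (if i % 2 = 0 then w (a, i / 2) else s a + min (i / 2) (p a)) < _
      split_ifs
      · have := hws a (i / 2); omega
      · omega)
    refine (CF.block h1 s (fun a => p a + 1) hs (by fun_prop)).not.congr fun a M _ x => ?_
    have key : ∀ y : ℕ → M, Q m (p a) (fun i => (fun j => if s a ≤ j ∧ j < s a + (p a + 1) then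
        y (j - s a) else x j) (w2 (a, i))) ↔ Q m (p a) (mrg (fun i => x (w (a, i))) y) := by
      intro y
      refine Q_loc m (p a) _ _ fun i hi => ?_
      show (if s a ≤ w2 (a, i) ∧ w2 (a, i) < s a + (p a + 1) then y (w2 (a, i) - s a)
        else x (w2 (a, i))) = if i % 2 = 0 then x (w (a, i / 2)) else y (i / 2)
      by_cases h2 : i % 2 = 0
      · have h3 : w2 (a, i) = w (a, i / 2) := if_pos h2
        have h4 := hws a (i / 2)
        rw [h3, if_pos h2, if_neg (by omega)]
      · have h3 : w2 (a, i) = s a + min (i / 2) (p a) := if_neg h2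
        have h4 : min (i / 2) (p a) = i / 2 := min_eq_left (by omega)
        rw [h3, if_neg h2, h4, if_pos (by omega)]
        congr 1
        omega
    simp only [key]
    show _ ↔ ∃ y : ℕ → M, ¬ Q m (p a) (mrg (fun i => x (w (a, i))) y)
    push Not
    rfl

theorem task : S_CT := by
  intro m k hk
  obtain ⟨F, hF, h⟩ := cf_Q m (ℕ × ℕ) (fun q => q.2) (by fun_prop)
    (fun z : (ℕ × ℕ) × ℕ => z.1.1 + if z.2 < k then z.2 else 0)
    (cadd (by fun_prop) (cite (cp_lt (by fun_prop) (by fun_prop)) (by fun_prop) (by fun_prop)))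
    (fun q => q.1 + k) (by fun_prop) (by
      intro a i
      show a.1 + (if i < k then i else 0) < a.1 + k
      split_ifs <;> omega)
  refine ⟨fun b p => F (b, p), hF, fun b p M _ x => (h (b, p) M x).trans ?_⟩
  have : (fun i => x (b + if i < k then i else 0)) = tr k fun i => x (b + i) := by
    funext i
    unfold tr
    split_ifs <;> rfl
  show Q m p (fun i => x (b + if i < k then i else 0)) ↔ _
  rw [this]

end Pool.Agent.W227.SFCT
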