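import Pool.Agent.W930.SFD.ZMB

/-!
The structure given by a set of facts without forbidden information (Henkin model).
-/

set_option autoImplicit false

open FirstOrder FirstOrder.Language Pool.Agent.Helper227.EN

namespace Pool.Agent.W227.SFZMA

open Pool.Agent.W921.SF
open Pool.Agent.W930.SFD.ZMB
open Pool.Agent.Helper578.JD Pool.Agent.Helper578.JD.Oracle Pool.Agent.Helper578.JD.Defs

/-- negation -/
def cNot (a : ℕ) : ℕ := cNand a a
/-- the atomic code -/
def at' (t i j l : ℕ) : ℕ := cAt (cd t i j l)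
/-- `x_i = x_j` -/
def cEq (i j : ℕ) : ℕ := cNot (cNand (cNot (at' 2 i j 0)) (cNot (at' 2 j i 0)))

section interp
/-! A general notion of interpretation of the codes. -/

/-- the interpretation of connectives -/
structure Itp (V : ℕ → Prop) : Prop where
  nand : ∀ a b, V (cNand a b) ↔ ¬ (V a ∧ V b)

variable {V : ℕ → Prop}

theorem Itp.not (h : Itp V) (a : ℕ) : V (cNot a) ↔ ¬ V a := by
  unfold cNot; rw [h.nand]; tauto

theorem Itp.imp (h : Itp V) (a b : ℕ) : V (cImp a b) ↔ (V a → V b) := by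
  unfold cImp; rw [h.nand, h.nand]; tauto

theorem Itp.eq (h : Itp V) (i j : ℕ) : V (cEq i j) ↔ ¬ V (at' 2 i j 0) ∧ ¬ V (at' 2 j i 0) := by
  unfold cEq; rw [h.not, h.nand, h.not, h.not]; tauto

end interp

/-- The list of axioms (open formulas). -/
def axs : List ℕ :=
  [ -- 0: irreflexivity
    cNot (at' 2 0 0 1),
    -- 1: equality is transitive
    cImp (cEq 0 1) (cImp (cEq 1 2) (cEq 0 2)),
    -- 2: congruence of lt
    cImp (cEq 0 1) (cImp (cEq 2 3) (cImp (at' 2 0 2 4) (at' 2 1 3 5))),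
    -- 3: congruence of add
    cImp (cEq 0 1) (cImp (cEq 2 3) (cImp (at' 0 0 2 4) (cImp (cEq 4 5) (at' 0 1 3 5)))),
    cImp (cEq 0 1) (cImp (cEq 2 3) (cImp (at' 0 0 2 4) (cImp (at' 0 1 3 5) (cEq 4 5)))),
    -- 5: congruence of mul
    cImp (cEq 0 1) (cImp (cEq 2 3) (cImp (at' 1 0 2 4) (cImp (cEq 4 5) (at' 1 1 3 5)))),
    cImp (cEq 0 1) (cImp (cEq 2 3) (cImp (at' 1 0 2 4) (cImp (at' 1 1 3 5) (cEq 4 5)))),
    -- 7: zero
    cImp (cEq 0 1) (cImp (at' 3 0 2 3) (at' 3 1 4 5)),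
    cImp (at' 3 0 2 3) (cImp (at' 3 1 4 5) (cEq 0 1)),
    -- 9: one
    cImp (cEq 0 1) (cImp (at' 4 0 2 3) (at' 4 1 4 5)),
    cImp (at' 4 0 2 3) (cImp (at' 4 1 4 5) (cEq 0 1)),
    -- 11: totality
    cNot (cAll 2 (cNot (at' 0 0 1 2))),
    cNot (cAll 2 (cNot (at' 1 0 1 2))),
    cNot (cAll 0 (cNot (at' 3 0 1 2))),
    cNot (cAll 0 (cNot (at' 4 0 1 2))),
    -- 15: `x + 0 = x`
    cImp (at' 3 1 3 4) (cImp (at' 0 0 1 2) (cEq 0 2)) ]

/-- the axioms -/
def Ax0 (c : ℕ) : Prop := c ∈ axs ∨ ∃ t : ℕ, cNot (at' (t + 5) 0 1 2) = c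

theorem re_Ax0 : REPred Ax0 := by
  refine RE.or ?_ ?_
  · exact (re_finite (s := {c | c ∈ axs}) (List.finite_toSet axs)).of_eq fun c => Iff.rfl
  · refine RE.ex (p := fun (c : ℕ) (t : ℕ) => cNot (at' (t + 5) 0 1 2) = c) ?_
    refine RE.eq (f := fun z : ℕ × ℕ => cNot (at' (z.2 + 5) 0 1 2)) (g := fun z => z.1) ?_
      Computable.fst
    have ht : Computable fun z : ℕ × ℕ => z.2 + 5 :=
      comp_add Computable.snd (Computable.const 5)
    have ha : Computable fun z : ℕ × ℕ => at' (z.2 + 5) 0 1 2 :=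
      comp_pair (Computable.const 0) (comp_pair ht (Computable.const _))
    exact comp_pair (Computable.const 1) (comp_pair ha ha)

section valid
variable {M : Type} [LA.Structure M]

theorem itp_sat (x : ℕ → M) : Itp fun c => Sat c x := ⟨fun a b => Sat_cNand a b x⟩

theorem Dg_mul (x : ℕ → M) (i j l : ℕ) : Dg x (cd 1 i j l) = true ↔
    Structure.funMap (L := LA) AF.mul ![x i, x j] = x l := by simp [Dg, cd]

theorem Dg_lt (x : ℕ → M) (i j l : ℕ) : Dg x (cd 2 i j l) = true ↔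
    Structure.RelMap (L := LA) AR.lt ![x i, x j] := by simp [Dg, cd]

theorem Dg_bot (x : ℕ → M) (t i j l : ℕ) : ¬ Dg x (cd (t + 5) i j l) = true := by
  simp [Dg, cd]

theorem valid_Ax0 (hM : M ⊨ PA) (c : ℕ) (hc : Ax0 c) (x : ℕ → M) : Sat c x := by
  have : Nonempty M := ⟨x 0⟩
  have hPm : (M : Type) ⊨ PAminus := hM.mono Set.subset_union_left
  obtain ⟨i1, i2, i3, i4, hcm⟩ := exists_alg M hPm
  have hI := fun x : ℕ → M => itp_sat x
  have h0 : ∀ (x : ℕ → M) (i j l : ℕ), Sat (at' 0 i j l) x ↔ x i + x j = x l := by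
    intro x i j l
    unfold at'
    rw [Sat_cAt, Dg_add, hcm.add]
  have h1 : ∀ (x : ℕ → M) (i j l : ℕ), Sat (at' 1 i j l) x ↔ x i * x j = x l := by
    intro x i j l
    unfold at'
    rw [Sat_cAt, Dg_mul, hcm.mul]
  have h2 : ∀ (x : ℕ → M) (i j l : ℕ), Sat (at' 2 i j l) x ↔ x i < x j := by
    intro x i j l
    unfold at'
    rw [Sat_cAt, Dg_lt, hcm.lt]
  have h3 : ∀ (x : ℕ → M) (i j l : ℕ), Sat (at' 3 i j l) x ↔ 0 = x i := by
    intro x i j l
    unfold at'
    rw [Sat_cAt, Dg_zero, hcm.zero]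
  have h4 : ∀ (x : ℕ → M) (i j l : ℕ), Sat (at' 4 i j l) x ↔ 1 = x i := by
    intro x i j l
    unfold at'
    rw [Sat_cAt, Dg_one, hcm.one]
  have he : ∀ (x : ℕ → M) (i j : ℕ), Sat (cEq i j) x ↔ x i = x j := by
    intro x i j
    rw [(hI x).eq, h2, h2, not_lt, not_lt]
    exact ⟨fun h => le_antisymm h.2 h.1, fun h => ⟨h.ge, h.le⟩⟩
  have hn : ∀ (x : ℕ → M) (a : ℕ), Sat (cNot a) x ↔ ¬ Sat a x := fun x a => (hI x).not a
  have hi : ∀ (x : ℕ → M) (a b : ℕ), Sat (cImp a b) x ↔ (Sat a x → Sat b x) :=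
    fun x a b => (hI x).imp a b
  rcases hc with hc | ⟨t, rfl⟩
  · unfold axs at hc
    simp only [List.mem_cons, List.mem_nil_iff, or_false] at hc
    rcases hc with rfl | rfl | rfl | rfl | rfl | rfl | rfl | rfl | rfl | rfl | rfl | rfl | rfl |
      rfl | rfl | rfl
    · rw [hn, h2]; exact lt_irrefl _
    · simp only [hi, he]; exact fun a b => a.trans b
    · simp only [hi, he, h2]; intro a b c; rwa [← a, ← b]
    · simp only [hi, he, h0]; intro a b c d; rw [← a, ← b, c, d]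
    · simp only [hi, he, h0]; intro a b c d; rw [← c, ← d, a, b]
    · simp only [hi, he, h1]; intro a b c d; rw [← a, ← b, c, d]
    · simp only [hi, he, h1]; intro a b c d; rw [← c, ← d, a, b]
    · simp only [hi, he, h3]; intro a b; rw [← a, b]
    · simp only [hi, he, h3]; intro a b; rw [← a, b]
    · simp only [hi, he, h4]; intro a b; rw [← a, b]
    · simp only [hi, he, h4]; intro a b; rw [← a, b]
    · rw [hn, Sat_cAll]; intro h
      have := h (x 0 + x 1)
      rw [hn, h0] at this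
      exact this (by simp [Function.update])
    · rw [hn, Sat_cAll]; intro h
      have := h (x 0 * x 1)
      rw [hn, h1] at this
      exact this (by simp [Function.update])
    · rw [hn, Sat_cAll]; intro h
      have := h 0
      rw [hn, h3] at this
      exact this (by simp [Function.update])
    · rw [hn, Sat_cAll]; intro h
      have := h 1
      rw [hn, h4] at this
      exact this (by simp [Function.update])
    · simp only [hi, he, h0, h3]; intro a b; rw [← a, add_zero] at b; exact b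
  · rw [hn]; unfold at'; rw [Sat_cAt]; exact Dg_bot _ _ _ _ _

end valid

theorem task : S_ZMA := by
  classical
  refine ⟨Ax0, re_Ax0, fun c hc M _ hM x => valid_Ax0 hM c hc x, ?_⟩
  intro Ax hAx a Z hZ
  -- truth in an environment
  have hnand : ∀ (c d : ℕ) (E : Env), fct (cNand c d) E ∈ Z ↔ ¬ (fct c E ∈ Z ∧ fct d E ∈ Z) := by
    intro c d E
    constructor
    · rintro h ⟨h1, h2⟩
      refine hZ _ (Forb.nand1 c d E) ⟨fun z hz => ?_, fun z hz => by simp at hz⟩
      simp only [List.mem_cons, List.mem_nil_iff, or_false] at hz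
      rcases hz with rfl | rfl | rfl <;> assumption
    · intro h
      by_contra h0
      by_cases h1 : fct c E ∈ Z
      · have h2 : fct d E ∉ Z := fun h2 => h ⟨h1, h2⟩
        refine hZ _ (Forb.nand3 c d E) ⟨fun z hz => by simp at hz, fun z hz => ?_⟩
        simp only [List.mem_cons, List.mem_nil_iff, or_false] at hz
        rcases hz with rfl | rfl <;> assumption
      · refine hZ _ (Forb.nand2 c d E) ⟨fun z hz => by simp at hz, fun z hz => ?_⟩
        simp only [List.mem_cons, List.mem_nil_iff, or_false] at hz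
        rcases hz with rfl | rfl <;> assumption
  have hall : ∀ (c v : ℕ) (E : Env), fct (cAll v c) E ∈ Z ↔ ∀ j, fct c (E.set v j) ∈ Z := by
    intro c v E
    constructor
    · intro h j
      by_contra h0
      refine hZ _ (Forb.all1 c v j E) ⟨fun z hz => ?_, fun z hz => ?_⟩
      · simp only [List.mem_cons, List.mem_nil_iff, or_false] at hz
        rw [hz]; exact h
      · simp only [List.mem_cons, List.mem_nil_iff, or_false] at hz
        rw [hz]; exact h0
    · intro h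
      by_contra h0
      refine hZ _ (Forb.all2 c v E) ⟨fun z hz => ?_, fun z hz => ?_⟩
      · simp only [List.mem_cons, List.mem_nil_iff, or_false] at hz
        rw [hz]; exact h _
      · simp only [List.mem_cons, List.mem_nil_iff, or_false] at hz
        rw [hz]; exact h0
  have hatom : ∀ (p p' : ℕ) (E E' : Env), rs p E = rs p' E' →
      fct (cAt p) E ∈ Z → fct (cAt p') E' ∈ Z := by
    intro p p' E E' h h1
    by_contra h0
    refine hZ _ (Forb.atom p p' E E' h) ⟨fun z hz => ?_, fun z hz => ?_⟩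
    · simp only [List.mem_cons, List.mem_nil_iff, or_false] at hz
      rw [hz]; exact h1
    · simp only [List.mem_cons, List.mem_nil_iff, or_false] at hz
      rw [hz]; exact h0
  have hax : ∀ (c : ℕ) (E : Env), Ax0 c → fct c E ∈ Z := by
    intro c E hc
    by_contra h0
    refine hZ _ (Forb.ax c E (hAx c hc)) ⟨fun z hz => by simp at hz, fun z hz => ?_⟩
    simp only [List.mem_cons, List.mem_nil_iff, or_false] at hz
    rw [hz]; exact h0
  -- the atomic facts
  let A : ℕ → ℕ → ℕ → ℕ → Prop := fun t i j l => fct (at' t 0 1 2) ([(0, i), (1, j), (2, l)], 0) ∈ Z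
  have hrs0 : ∀ (t u v w : ℕ) (E : Env), rs (cd t u v w) E = cd t (lk E u) (lk E v) (lk E w) := by
    intro t u v w E; simp [rs, cd]
  have hA : ∀ (t u v w : ℕ) (E : Env), fct (at' t u v w) E ∈ Z ↔ A t (lk E u) (lk E v) (lk E w) := by
    intro t u v w E
    have : rs (cd t u v w) E = rs (cd t 0 1 2) ([(0, lk E u), (1, lk E v), (2, lk E w)], 0) := by
      rw [hrs0, hrs0]
      simp [lk, List.lookup]
    exact ⟨hatom _ _ _ _ this, hatom _ _ _ _ this.symm⟩
  have hitp : ∀ E : Env, Itp fun c => fct c E ∈ Z := fun E => ⟨fun a b => hnand a b E⟩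
  have hn : ∀ (E : Env) (a : ℕ), fct (cNot a) E ∈ Z ↔ ¬ fct a E ∈ Z := fun E a => (hitp E).not a
  have hi : ∀ (E : Env) (a b : ℕ), fct (cImp a b) E ∈ Z ↔ (fct a E ∈ Z → fct b E ∈ Z) :=
    fun E a b => (hitp E).imp a b
  have he : ∀ (E : Env) (i j : ℕ), fct (cEq i j) E ∈ Z ↔
      ¬ A 2 (lk E i) (lk E j) (lk E 0) ∧ ¬ A 2 (lk E j) (lk E i) (lk E 0) := by
    intro E i j
    rw [(hitp E).eq, hA, hA]
  let F6 : ℕ → ℕ → ℕ → ℕ → ℕ → ℕ → Env := fun a0 a1 a2 a3 a4 a5 =>
    ([(0, a0), (1, a1), (2, a2), (3, a3), (4, a4), (5, a5)], 0)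
  have f0 : ∀ a0 a1 a2 a3 a4 a5, lk (F6 a0 a1 a2 a3 a4 a5) 0 = a0 := fun _ _ _ _ _ _ => rfl
  have f1 : ∀ a0 a1 a2 a3 a4 a5, lk (F6 a0 a1 a2 a3 a4 a5) 1 = a1 := fun _ _ _ _ _ _ => rfl
  have f2 : ∀ a0 a1 a2 a3 a4 a5, lk (F6 a0 a1 a2 a3 a4 a5) 2 = a2 := fun _ _ _ _ _ _ => rfl
  have f3 : ∀ a0 a1 a2 a3 a4 a5, lk (F6 a0 a1 a2 a3 a4 a5) 3 = a3 := fun _ _ _ _ _ _ => rfl
  have f4 : ∀ a0 a1 a2 a3 a4 a5, lk (F6 a0 a1 a2 a3 a4 a5) 4 = a4 := fun _ _ _ _ _ _ => rfl
  have f5 : ∀ a0 a1 a2 a3 a4 a5, lk (F6 a0 a1 a2 a3 a4 a5) 5 = a5 := fun _ _ _ _ _ _ => rfl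
  have axm : ∀ c ∈ axs, ∀ E : Env, fct c E ∈ Z := fun c hc E => hax c E (Or.inl hc)
  -- the irrelevant entry of `lt`, via congruence
  have hirr0 : ∀ i l, ¬ A 2 i i l := by
    intro i l
    have h := axm (cNot (at' 2 0 0 1)) (by simp [axs]) (F6 i l 0 0 0 0)
    rw [hn, hA, f0, f1] at h
    exact h
  have hlt0 : ∀ i k l l', A 2 i k l → A 2 i k l' := by
    intro i k l l' h0
    have h := axm (cImp (cEq 0 1) (cImp (cEq 2 3) (cImp (at' 2 0 2 4) (at' 2 1 3 5))))
      (by simp [axs]) (F6 i i k k l l')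
    rw [hi, hi, hi, he, he, hA, hA, f0, f1, f2, f3, f4, f5] at h
    exact h ⟨hirr0 _ _, hirr0 _ _⟩ ⟨hirr0 _ _, hirr0 _ _⟩ h0
  have hR : ∀ i k l, A 2 i k l ↔ A 2 i k 0 := fun i k l => ⟨hlt0 _ _ _ _, hlt0 _ _ _ _⟩
  let E : ℕ → ℕ → Prop := fun i j => ¬ A 2 i j 0 ∧ ¬ A 2 j i 0
  have he' : ∀ (F : Env) (i j : ℕ), fct (cEq i j) F ∈ Z ↔ E (lk F i) (lk F j) := by
    intro F i j
    rw [he, hR, hR _ _ (lk F 0)]
  have hirr : ∀ i, ¬ A 2 i i 0 := fun i => hirr0 i 0
  have Erefl : ∀ i, E i i := fun i => ⟨hirr i, hirr i⟩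
  have Esymm : ∀ i j, E i j → E j i := fun i j h => ⟨h.2, h.1⟩
  have Etrans : ∀ i j k, E i j → E j k → E i k := by
    intro i j k h1 h2
    have h := axm (cImp (cEq 0 1) (cImp (cEq 1 2) (cEq 0 2))) (by simp [axs]) (F6 i j k 0 0 0)
    rw [hi, hi, he', he', he', f0, f1, f2] at h
    exact h h1 h2
  have clt : ∀ i i' j j', E i i' → E j j' → A 2 i j 0 → A 2 i' j' 0 := by
    intro i i' j j' h1 h2 h3
    have h := axm (cImp (cEq 0 1) (cImp (cEq 2 3) (cImp (at' 2 0 2 4) (at' 2 1 3 5))))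
      (by simp [axs]) (F6 i i' j j' 0 0)
    rw [hi, hi, hi, he', he', hA, hA, f0, f1, f2, f3, f4, f5] at h
    exact h h1 h2 h3
  have cadd1 : ∀ i i' j j' l l', E i i' → E j j' → A 0 i j l → E l l' → A 0 i' j' l' := by
    intro i i' j j' l l' h1 h2 h3 h4
    have h := axm (cImp (cEq 0 1) (cImp (cEq 2 3) (cImp (at' 0 0 2 4)
      (cImp (cEq 4 5) (at' 0 1 3 5))))) (by simp [axs]) (F6 i i' j j' l l')
    rw [hi, hi, hi, hi, he', he', he', hA, hA, f0, f1, f2, f3, f4, f5] at h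
    exact h h1 h2 h3 h4
  have cadd2 : ∀ i i' j j' l l', E i i' → E j j' → A 0 i j l → A 0 i' j' l' → E l l' := by
    intro i i' j j' l l' h1 h2 h3 h4
    have h := axm (cImp (cEq 0 1) (cImp (cEq 2 3) (cImp (at' 0 0 2 4)
      (cImp (at' 0 1 3 5) (cEq 4 5))))) (by simp [axs]) (F6 i i' j j' l l')
    rw [hi, hi, hi, hi, he', he', he', hA, hA, f0, f1, f2, f3, f4, f5] at h
    exact h h1 h2 h3 h4
  have cmul1 : ∀ i i' j j' l l', E i i' → E j j' → A 1 i j l → E l l' → A 1 i' j' l' := by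
    intro i i' j j' l l' h1 h2 h3 h4
    have h := axm (cImp (cEq 0 1) (cImp (cEq 2 3) (cImp (at' 1 0 2 4)
      (cImp (cEq 4 5) (at' 1 1 3 5))))) (by simp [axs]) (F6 i i' j j' l l')
    rw [hi, hi, hi, hi, he', he', he', hA, hA, f0, f1, f2, f3, f4, f5] at h
    exact h h1 h2 h3 h4
  have cmul2 : ∀ i i' j j' l l', E i i' → E j j' → A 1 i j l → A 1 i' j' l' → E l l' := by
    intro i i' j j' l l' h1 h2 h3 h4
    have h := axm (cImp (cEq 0 1) (cImp (cEq 2 3) (cImp (at' 1 0 2 4)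
      (cImp (at' 1 1 3 5) (cEq 4 5))))) (by simp [axs]) (F6 i i' j j' l l')
    rw [hi, hi, hi, hi, he', he', he', hA, hA, f0, f1, f2, f3, f4, f5] at h
    exact h h1 h2 h3 h4
  have cz1 : ∀ i i' a b a' b', E i i' → A 3 i a b → A 3 i' a' b' := by
    intro i i' a b a' b' h1 h2
    have h := axm (cImp (cEq 0 1) (cImp (at' 3 0 2 3) (at' 3 1 4 5))) (by simp [axs])
      (F6 i i' a b a' b')
    rw [hi, hi, he', hA, hA, f0, f1, f2, f3, f4, f5] at h
    exact h h1 h2
  have cz2 : ∀ i i' a b a' b', A 3 i a b → A 3 i' a' b' → E i i' := by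
    intro i i' a b a' b' h1 h2
    have h := axm (cImp (at' 3 0 2 3) (cImp (at' 3 1 4 5) (cEq 0 1))) (by simp [axs])
      (F6 i i' a b a' b')
    rw [hi, hi, he', hA, hA, f0, f1, f2, f3, f4, f5] at h
    exact h h1 h2
  have co1 : ∀ i i' a b a' b', E i i' → A 4 i a b → A 4 i' a' b' := by
    intro i i' a b a' b' h1 h2
    have h := axm (cImp (cEq 0 1) (cImp (at' 4 0 2 3) (at' 4 1 4 5))) (by simp [axs])
      (F6 i i' a b a' b')
    rw [hi, hi, he', hA, hA, f0, f1, f2, f3, f4, f5] at h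
    exact h h1 h2
  have co2 : ∀ i i' a b a' b', A 4 i a b → A 4 i' a' b' → E i i' := by
    intro i i' a b a' b' h1 h2
    have h := axm (cImp (at' 4 0 2 3) (cImp (at' 4 1 4 5) (cEq 0 1))) (by simp [axs])
      (F6 i i' a b a' b')
    rw [hi, hi, he', hA, hA, f0, f1, f2, f3, f4, f5] at h
    exact h h1 h2
  have tadd' : ∀ i j, ∃ l, A 0 i j l := by
    intro i j
    have h := axm (cNot (cAll 2 (cNot (at' 0 0 1 2)))) (by simp [axs]) (F6 i j 0 0 0 0)
    rw [hn, hall] at h
    by_contra h0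
    refine h fun l => ?_
    rw [hn, hA]
    exact fun h1 => h0 ⟨l, h1⟩
  have tmul' : ∀ i j, ∃ l, A 1 i j l := by
    intro i j
    have h := axm (cNot (cAll 2 (cNot (at' 1 0 1 2)))) (by simp [axs]) (F6 i j 0 0 0 0)
    rw [hn, hall] at h
    by_contra h0
    refine h fun l => ?_
    rw [hn, hA]
    exact fun h1 => h0 ⟨l, h1⟩
  have tz : ∃ i, A 3 i 0 0 := by
    have h := axm (cNot (cAll 0 (cNot (at' 3 0 1 2)))) (by simp [axs]) (F6 0 0 0 0 0 0)
    rw [hn, hall] at h
    by_contra h0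
    refine h fun l => ?_
    rw [hn, hA]
    exact fun h1 => h0 ⟨l, h1⟩
  have to' : ∃ i, A 4 i 0 0 := by
    have h := axm (cNot (cAll 0 (cNot (at' 4 0 1 2)))) (by simp [axs]) (F6 0 0 0 0 0 0)
    rw [hn, hall] at h
    by_contra h0
    refine h fun l => ?_
    rw [hn, hA]
    exact fun h1 => h0 ⟨l, h1⟩
  have addz : ∀ i z l, A 3 z 0 0 → A 0 i z l → E i l := by
    intro i z l h1 h2
    have h := axm (cImp (at' 3 1 3 4) (cImp (at' 0 0 1 2) (cEq 0 2))) (by simp [axs])
      (F6 i z l 0 0 0)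
    rw [hi, hi, he', hA, hA, f0, f1, f2, f3, f4] at h
    exact h h1 h2
  have hbot : ∀ t i j l, ¬ A (t + 5) i j l := by
    intro t i j l
    have h := hax (cNot (at' (t + 5) 0 1 2)) (F6 i j l 0 0 0) (Or.inr ⟨t, rfl⟩)
    rw [hn, hA, f0, f1, f2] at h
    exact h
  choose fa hfa using tadd'
  choose fm hfm using tmul'
  obtain ⟨z0, hz0⟩ := tz
  obtain ⟨o0, ho0⟩ := to'
  let S : Setoid ℕ := ⟨E, fun i => Erefl i, fun {i j} h => Esymm i j h,
    fun {i j k} h1 h2 => Etrans i j k h1 h2⟩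
  let P : ℕ → Quotient S := fun i => Quotient.mk S i
  have hP : ∀ i j, P i = P j ↔ E i j := fun i j => Quotient.eq (r := S)
  let qa : Quotient S → Quotient S → Quotient S := Quotient.map₂ fa
    (fun i i' h1 j j' h2 => cadd2 i i' j j' _ _ h1 h2 (hfa i j) (hfa i' j'))
  let qm : Quotient S → Quotient S → Quotient S := Quotient.map₂ fm
    (fun i i' h1 j j' h2 => cmul2 i i' j j' _ _ h1 h2 (hfm i j) (hfm i' j'))
  let ql : Quotient S → Quotient S → Prop := Quotient.lift₂ (fun i j => A 2 i j 0)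
    (fun i j i' j' h1 h2 => propext ⟨clt i i' j j' h1 h2,
      clt i' i j' j (Esymm _ _ h1) (Esymm _ _ h2)⟩)
  have hqa : ∀ i j l, qa (P i) (P j) = P l ↔ A 0 i j l := by
    intro i j l
    have : qa (P i) (P j) = P (fa i j) := rfl
    rw [this, hP]
    exact ⟨fun h => cadd1 _ _ _ _ _ _ (Erefl _) (Erefl _) (hfa i j) h,
      fun h => cadd2 _ _ _ _ _ _ (Erefl _) (Erefl _) (hfa i j) h⟩
  have hqm : ∀ i j l, qm (P i) (P j) = P l ↔ A 1 i j l := by
    intro i j l
    have : qm (P i) (P j) = P (fm i j) := rfl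
    rw [this, hP]
    exact ⟨fun h => cmul1 _ _ _ _ _ _ (Erefl _) (Erefl _) (hfm i j) h,
      fun h => cmul2 _ _ _ _ _ _ (Erefl _) (Erefl _) (hfm i j) h⟩
  have hql : ∀ i j, ql (P i) (P j) ↔ A 2 i j 0 := fun i j => Iff.rfl
  have hz : ∀ i j l, P z0 = P i ↔ A 3 i j l := by
    intro i j l
    rw [hP]
    exact ⟨fun h => cz1 _ _ _ _ _ _ h hz0, fun h => cz2 _ _ _ _ _ _ hz0 h⟩
  have ho : ∀ i j l, P o0 = P i ↔ A 4 i j l := by
    intro i j l
    rw [hP]
    exact ⟨fun h => co1 _ _ _ _ _ _ h ho0, fun h => co2 _ _ _ _ _ _ ho0 h⟩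
  let str : LA.Structure (Quotient S) :=
    { funMap := fun {n} f => match n, f with
        | _, AF.zero => fun _ => P z0
        | _, AF.one => fun _ => P o0
        | _, AF.add => fun v => qa (v 0) (v 1)
        | _, AF.mul => fun v => qm (v 0) (v 1)
      RelMap := fun {n} r => match n, r with
        | _, AR.lt => fun v => ql (v 0) (v 1) }
  have hsurj : Function.Surjective P := fun y => Quotient.exists_rep y
  let _ := str
  have hdg : ∀ (p : ℕ) (F : Env), Dg (fun v => P (lk F v)) p = true ↔ fct (cAt p) F ∈ Z := by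
    intro p F
    obtain ⟨t, i, j, l, rfl⟩ : ∃ t i j l, p = cd t i j l :=
      ⟨p.unpair.1, p.unpair.2.unpair.1, p.unpair.2.unpair.2.unpair.1, p.unpair.2.unpair.2.unpair.2,
        by unfold cd; rw [Nat.pair_unpair, Nat.pair_unpair, Nat.pair_unpair]⟩
    have hA' := hA t i j l F
    unfold at' at hA'
    rw [hA']
    rcases t with _ | _ | _ | _ | _ | t
    · rw [Dg_add]; exact hqa _ _ _
    · rw [Dg_mul]; exact hqm _ _ _
    · rw [Dg_lt]; exact (hql _ _).trans (hR _ _ _).symm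
    · rw [Dg_zero]; exact hz _ _ _
    · rw [Dg_one]; exact ho _ _ _
    · exact iff_of_false (Dg_bot _ _ _ _ _) (hbot _ _ _ _)
  have htr : ∀ (c : ℕ) (F : Env), Sat c (fun v => P (lk F v)) ↔ fct c F ∈ Z := by
    intro c
    induction c using Nat.strong_induction_on with
    | _ c ih =>
      intro F
      by_cases h0 : c.unpair.1 = 0
      · have hc : c = cAt c.unpair.2 := by
          unfold cAt; conv_lhs => rw [← Nat.pair_unpair c, h0]
        rw [hc, Sat_cAt]
        exact hdg _ F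
      · have h1 := unpair_snd_lt h0
        by_cases h2 : c.unpair.1 = 1
        · have h3 : c.unpair.2.unpair.1 < c := lt_of_le_of_lt (Nat.unpair_left_le _) h1
          have h4 : c.unpair.2.unpair.2 < c := lt_of_le_of_lt (Nat.unpair_right_le _) h1
          have hc : c = cNand c.unpair.2.unpair.1 c.unpair.2.unpair.2 := by
            unfold cNand; rw [Nat.pair_unpair]; conv_lhs => rw [← Nat.pair_unpair c, h2]
          rw [hc, Sat_cNand, ih _ h3, ih _ h4, hnand]
        · have hc : c = cAll (c.unpair.1 - 2) c.unpair.2 := by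
            unfold cAll
            have : c.unpair.1 - 2 + 2 = c.unpair.1 := by omega
            rw [this, Nat.pair_unpair]
          rw [hc, Sat_cAll, hall]
          have hup : ∀ j, (Function.update (fun v => P (lk F v)) (c.unpair.1 - 2) (P j)) =
              fun v => P (lk (F.set (c.unpair.1 - 2) j) v) := by
            intro j
            funext w
            rw [lk_set]
            by_cases hw : w = c.unpair.1 - 2
            · subst hw; rw [Function.update_self, if_pos rfl]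
            · rw [Function.update_of_ne hw, if_neg hw]
          constructor
          · intro h j
            rw [← ih _ h1, ← hup]
            exact h (P j)
          · intro h y
            obtain ⟨j, rfl⟩ := hsurj y
            rw [hup, ih _ h1]
            exact h j
  refine ⟨Quotient S, str, P, ?_, hsurj, htr, ?_⟩
  · rintro x z y rfl
    obtain ⟨i, rfl⟩ := hsurj x
    obtain ⟨l, rfl⟩ := hsurj y
    show qa (P i) (P z0) = P l ↔ P i = P l
    rw [hqa, hP]
    refine ⟨fun h => addz _ _ _ hz0 h, fun h => ?_⟩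
    exact cadd1 _ _ _ _ _ _ (Erefl _) (Erefl _) (hfa i z0)
      (Etrans _ _ _ (Esymm _ _ (addz _ _ _ hz0 (hfa i z0))) h)
  · intro j
    induction j with
    | zero =>
      have h : fct (cAt (cd 3 0 0 0)) ([], 0) ∈ Z := by
        by_contra h0
        refine hZ _ Forb.zero ⟨fun z hz => by simp at hz, fun z hz => ?_⟩
        simp only [List.mem_cons, List.mem_nil_iff, or_false] at hz
        rw [hz]; exact h0
      rw [← htr, Sat_cAt, Dg_zero] at h
      have e : nv (Quotient S) 0 = Structure.funMap (L := LA) AF.zero ![] := by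
        unfold nv num
        exact ea_t0 _
      rw [e, h]
      rfl
    | succ j ih =>
      have h : fct cSucc ([(0, 2 * j), (1, 2 * j + 2)], 0) ∈ Z := by
        by_contra h0
        refine hZ _ (Forb.succ j) ⟨fun z hz => by simp at hz, fun z hz => ?_⟩
        simp only [List.mem_cons, List.mem_nil_iff, or_false] at hz
        rw [hz]; exact h0
      rw [← htr] at h
      unfold cSucc at h
      rw [Sat_cNand, and_self, Sat_cAll] at h
      push Not at h
      obtain ⟨y, hy⟩ := h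
      rw [Sat_cNand, not_not, Sat_cAt, Sat_cAt, Dg_one, Dg_add] at hy
      obtain ⟨hy1, hy2⟩ := hy
      have e : nv (Quotient S) (j + 1) = Structure.funMap (L := LA) AF.add
          ![nv (Quotient S) j, Structure.funMap (L := LA) AF.one ![] ] := by
        unfold nv
        rw [num, ea_tadd, ea_t1]
      rw [e, ih]
      have hy3 : Structure.funMap (L := LA) AF.add ![P (2 * j), y] = P (2 * (j + 1)) := hy2
      have hy4 : Structure.funMap (L := LA) AF.one ![] = y := hy1
      rw [← hy4] at hy3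
      exact hy3

end Pool.Agent.W227.SFZMA
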